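import Mathlib

/-!
# MP_d10f6f_co : weak rainbow saturation numbers of cliques

We prove `rwsat(n, K_r) ≤ (r - 1) n - C(r, 2)` for all `n ≥ r ≥ 3`; in particular
`rwsat(n, K_r) ≤ r n + C` for all large `n`, which is Q1.

The coloured graph is the join of a clique `A` on `r - 1` vertices and `n - r + 1` isolated vertices,
all of whose edges have different colours. If `u v` is a missing edge and gets the colour `c`, then at
most one edge of the starting graph has the colour `c`; it has an endpoint `a` in `A`, and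
`{u, v} ∪ A \ {a}` spans a rainbow `K_r`.
-/

set_option autoImplicit false

namespace Pool.Agent.Results.MP_d10f6f_co.WeakRainbow

open Finset SimpleGraph

/-- The graph `G + e 0 + … + e i`. -/
def addEdges {n m : ℕ} (G : SimpleGraph (Fin n)) (e : Fin m → Sym2 (Fin n)) (i : Fin m) :
    SimpleGraph (Fin n) :=
  G ⊔ SimpleGraph.fromEdgeSet {f | ∃ j ≤ i, e j = f}

/-- The colour of a pair after the pair `e j` has received the colour `c j` (for all `j`); all other
pairs keep their colour `χ`. -/
noncomputable def addColours {n m : ℕ} (χ : Sym2 (Fin n) → ℕ) (e : Fin m → Sym2 (Fin n))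
    (c : Fin m → ℕ) : Sym2 (Fin n) → ℕ :=
  Function.extend e c χ

/-- The pair `f` lies in a rainbow copy of `K_r` in the graph `H` with the edge colouring `κ`: there is
a clique with `r` vertices, among them both elements of `f`, whose edges have different colours. -/
def InRainbowClique {n : ℕ} (r : ℕ) (H : SimpleGraph (Fin n)) (κ : Sym2 (Fin n) → ℕ)
    (f : Sym2 (Fin n)) : Prop :=
  ∃ s : Finset (Fin n), H.IsNClique r s ∧ (∀ v ∈ f, v ∈ s) ∧
    Set.InjOn κ {g | g ∈ H.edgeSet ∧ ∀ v ∈ g, v ∈ s}

/-- The graph `G ⊆ K_n` with the edge colouring `χ` (only the values of `χ` on edges of `G` matter) is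
weakly `K_r`-rainbow saturated: the missing edges can be ordered as `e 0, …, e (m - 1)`, so that for
all sequences of pairwise different colours `c 0, …, c (m - 1)`, the edge `e i` (with the colour `c i`)
lies in a rainbow `K_r` of the coloured graph `G + e 0 + … + e i`, for every `i`. -/
def WeaklySaturated {n : ℕ} (r : ℕ) (G : SimpleGraph (Fin n)) (χ : Sym2 (Fin n) → ℕ) : Prop :=
  ∃ (m : ℕ) (e : Fin m → Sym2 (Fin n)), Function.Injective e ∧ Set.range e = Gᶜ.edgeSet ∧
    ∀ c : Fin m → ℕ, Function.Injective c →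
      ∀ i, InRainbowClique r (addEdges G e i) (addColours χ e c) (e i)

/-- The weak rainbow saturation number of `K_r`: the least number of edges of a weakly
`K_r`-rainbow saturated coloured subgraph of `K_n`. -/
noncomputable def rwsat (n r : ℕ) : ℕ :=
  sInf {k | ∃ (G : SimpleGraph (Fin n)) (χ : Sym2 (Fin n) → ℕ),
    WeaklySaturated r G χ ∧ G.edgeSet.ncard = k}

/-- The join of a clique on the first `r - 1` vertices and `n - r + 1` isolated vertices. -/
def base (n r : ℕ) : SimpleGraph (Fin n) where
  Adj u v := u ≠ v ∧ ((u : ℕ) < r - 1 ∨ (v : ℕ) < r - 1)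
  symm := ⟨fun _ _ h => ⟨h.1.symm, h.2.symm⟩⟩
  loopless := ⟨fun _ h => h.1 rfl⟩

theorem base_saturated (n r : ℕ) (hr : 3 ≤ r) (hn : r ≤ n) (χ : Sym2 (Fin n) → ℕ)
    (hχ : Function.Injective χ) : WeaklySaturated r (base n r) χ := by
  classical
  let E := (base n r)ᶜ.edgeSet
  refine ⟨Fintype.card E, fun i => ((Fintype.equivFin E).symm i : Sym2 (Fin n)), ?_, ?_, ?_⟩
  · exact Subtype.val_injective.comp (Equiv.injective _)
  · ext f
    constructor
    · rintro ⟨i, rfl⟩
      exact ((Fintype.equivFin E).symm i).2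
    · intro hf
      exact ⟨Fintype.equivFin E ⟨f, hf⟩, by simp⟩
  intro c hc i
  set e : Fin (Fintype.card E) → Sym2 (Fin n) :=
    fun i => ((Fintype.equivFin E).symm i : Sym2 (Fin n)) with he
  have hinj : Function.Injective e := Subtype.val_injective.comp (Equiv.injective _)
  have hmem : ∀ j, e j ∈ (base n r)ᶜ.edgeSet := fun j => ((Fintype.equivFin E).symm j).2
  -- the clique
  let A : Finset (Fin n) := univ.filter (fun v => (v : ℕ) < r - 1)
  have hA : A.card = r - 1 := by
    have : A = univ.filter (fun v : Fin n => (v : ℕ) < r - 1) := rfl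
    rw [this, Fin.card_filter_val_lt]
    omega
  -- new colour
  have hold : ∀ f ∈ (base n r).edgeSet, addColours χ e c f = χ f := by
    intro f hf
    unfold addColours
    apply Function.extend_apply'
    rintro ⟨j, rfl⟩
    have h1 := hmem j
    have : Disjoint (base n r).edgeSet (base n r)ᶜ.edgeSet := by
      rw [SimpleGraph.disjoint_edgeSet]
      exact disjoint_compl_right
    exact Set.disjoint_left.1 this hf h1
  have hnew : addColours χ e c (e i) = c i := by
    unfold addColours
    exact hinj.extend_apply _ _ _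
  obtain ⟨a, haA, ha⟩ : ∃ a ∈ A, ∀ f ∈ (base n r).edgeSet, a ∉ f → χ f ≠ c i := by
    by_cases h : ∃ f ∈ (base n r).edgeSet, χ f = c i
    · obtain ⟨f, hf, hfc⟩ := h
      induction f using Sym2.ind with
      | _ x y =>
        rw [SimpleGraph.mem_edgeSet] at hf
        obtain ⟨hne, hxy⟩ := hf
        have key : ∀ a ∈ (s(x, y) : Sym2 (Fin n)), ∀ f ∈ (base n r).edgeSet, a ∉ f → χ f ≠ c i := by
          intro a ha f _ haf hf
          rw [← hfc] at hf
          rw [hχ hf] at haf
          exact haf ha
        rcases hxy with h | h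
        · exact ⟨x, by simp [A, h], key x (by simp)⟩
        · exact ⟨y, by simp [A, h], key y (by simp)⟩
    · have : A.Nonempty := by
        rw [← Finset.card_pos]; omega
      obtain ⟨a, ha⟩ := this
      exact ⟨a, ha, fun f hf _ hc => h ⟨f, hf, hc⟩⟩
  have hei := hmem i
  obtain ⟨u, v, huv⟩ : ∃ u v, e i = s(u, v) := by
    induction h : e i using Sym2.ind with
    | _ x y => exact ⟨x, y, rfl⟩
  rw [huv, SimpleGraph.mem_edgeSet, SimpleGraph.compl_adj] at hei
  obtain ⟨hne, hnadj⟩ := hei
  have huA : ¬ (u : ℕ) < r - 1 := fun h => hnadj ⟨hne, Or.inl h⟩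
  have hvA : ¬ (v : ℕ) < r - 1 := fun h => hnadj ⟨hne, Or.inr h⟩
  have huA' : u ∉ A.erase a := by simp [A, huA]
  have hvA' : v ∉ A.erase a := by simp [A, hvA]
  have hav : a ≠ v := by rintro rfl; simp [A, hvA] at haA
  have hau : a ≠ u := by rintro rfl; simp [A, huA] at haA
  have hs : ∀ x ∈ insert u (insert v (A.erase a)), x = u ∨ x = v ∨ (x : ℕ) < r - 1 := by
    intro x hx
    simp only [mem_insert, mem_erase, A, mem_filter, mem_univ, true_and] at hx
    tauto
  have has : a ∉ insert u (insert v (A.erase a)) := by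
    simp [hau, hav]
  -- adjacency in the new graph
  have hadj : ∀ x ∈ insert u (insert v (A.erase a)), ∀ y ∈ insert u (insert v (A.erase a)), x ≠ y →
      (base n r).Adj x y ∨ s(x, y) = e i := by
    intro x hx y hy hxy
    rcases hs x hx with rfl | rfl | h
    · rcases hs y hy with rfl | rfl | h'
      · exact absurd rfl hxy
      · exact Or.inr huv.symm
      · exact Or.inl ⟨hxy, Or.inr h'⟩
    · rcases hs y hy with rfl | rfl | h'
      · exact Or.inr (by rw [huv, Sym2.eq_swap])
      · exact absurd rfl hxy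
      · exact Or.inl ⟨hxy, Or.inr h'⟩
    · exact Or.inl ⟨hxy, Or.inl h⟩
  have hsub : ∀ g ∈ (addEdges (base n r) e i).edgeSet,
      (∀ w ∈ g, w ∈ insert u (insert v (A.erase a))) →
      (g ∈ (base n r).edgeSet ∧ χ g ≠ c i) ∨ g = e i := by
    intro g hg hgs
    have hag : a ∉ g := fun h => has (hgs a h)
    induction g using Sym2.ind with
    | _ x y =>
      have hxy : x ≠ y := by
        rw [SimpleGraph.mem_edgeSet] at hg
        exact hg.ne
      rcases hadj x (hgs x (by simp)) y (hgs y (by simp)) hxy with h | h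
      · exact Or.inl ⟨h, ha _ h hag⟩
      · exact Or.inr h
  refine ⟨insert u (insert v (A.erase a)), ?_, ?_, ?_⟩
  · rw [SimpleGraph.isNClique_iff]
    constructor
    · intro x hx y hy hxy
      rcases hadj x hx y hy hxy with h | h
      · exact Or.inl h
      · refine Or.inr ?_
        rw [SimpleGraph.fromEdgeSet_adj]
        exact ⟨⟨i, le_rfl, h.symm⟩, hxy⟩
    · rw [card_insert_of_notMem, card_insert_of_notMem hvA', card_erase_of_mem haA, hA]
      · omega
      · simp only [mem_insert, not_or]
        exact ⟨hne, huA'⟩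
  · intro w hw
    rw [huv] at hw
    simp only [Sym2.mem_iff] at hw
    rcases hw with rfl | rfl <;> simp
  · rintro g ⟨hg, hgs⟩ g' ⟨hg', hgs'⟩ hgg
    rcases hsub g hg hgs with ⟨h1, h2⟩ | h1
    · rw [hold g h1] at hgg
      rcases hsub g' hg' hgs' with ⟨h3, h4⟩ | h3
      · rw [hold g' h3] at hgg
        exact hχ hgg
      · rw [h3, hnew] at hgg
        exact absurd hgg h2
    · rw [h1, hnew] at hgg
      rcases hsub g' hg' hgs' with ⟨h3, h4⟩ | h3
      · rw [hold g' h3] at hgg
        exact absurd hgg.symm h4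
      · rw [h1, h3]

theorem base_card (n r : ℕ) (hr : 3 ≤ r) (hn : r ≤ n) :
    (base n r).edgeSet.ncard + r.choose 2 = (r - 1) * n := by
  classical
  have h1 : (base n r).edgeSet.ncard + (base n r)ᶜ.edgeSet.ncard = n.choose 2 := by
    rw [← Set.ncard_union_eq ?_ (Set.toFinite _) (Set.toFinite _), ← SimpleGraph.edgeSet_sup,
      sup_compl_eq_top, ← SimpleGraph.coe_edgeFinset, Set.ncard_coe_finset,
      SimpleGraph.card_edgeFinset_top_eq_card_choose_two, Fintype.card_fin]
    rw [SimpleGraph.disjoint_edgeSet]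
    exact disjoint_compl_right
  have h2 : (base n r)ᶜ.edgeSet.ncard = (n - (r - 1)).choose 2 := by
    let B : Finset (Fin n) := univ.filter (fun v => ¬ (v : ℕ) < r - 1)
    have hB : B.card = n - (r - 1) := by
      have h3 : (univ.filter (fun v : Fin n => (v : ℕ) < r - 1)).card + B.card
          = (univ : Finset (Fin n)).card := Finset.card_filter_add_card_filter_not _
      rw [Fin.card_filter_val_lt, card_univ, Fintype.card_fin] at h3
      omega
    rw [← hB, ← Sym2.card_image_offDiag, ← Set.ncard_coe_finset]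
    congr 1
    ext f
    induction f using Sym2.ind with
    | _ x y =>
      rw [SimpleGraph.mem_edgeSet, SimpleGraph.compl_adj]
      simp only [coe_image, Set.mem_image, mem_coe, mem_offDiag, Prod.exists, Function.uncurry]
      constructor
      · rintro ⟨h3, h4⟩
        refine ⟨x, y, ⟨?_, ?_, h3⟩, rfl⟩
        · simp only [B, mem_filter, mem_univ, true_and]
          exact fun h => h4 ⟨h3, Or.inl h⟩
        · simp only [B, mem_filter, mem_univ, true_and]
          exact fun h => h4 ⟨h3, Or.inr h⟩
      · rintro ⟨x', y', ⟨h3, h4, h5⟩, h6⟩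
        simp only [B, mem_filter, mem_univ, true_and] at h3 h4
        rw [Sym2.eq_iff] at h6
        rcases h6 with ⟨rfl, rfl⟩ | ⟨rfl, rfl⟩
        · exact ⟨h5, fun h => h.2.elim h3 h4⟩
        · exact ⟨h5.symm, fun h => h.2.elim h4 h3⟩
  obtain ⟨k, rfl⟩ := Nat.exists_eq_add_of_le hn
  obtain ⟨s, rfl⟩ := Nat.exists_eq_add_of_le hr
  have h3 : 3 + s + k - (3 + s - 1) = k + 1 := by omega
  have h4 : 3 + s - 1 = s + 2 := by omega
  rw [h2, h3] at h1
  rw [h4]
  have e1 := Nat.triangle_succ (3 + s + k - 1)
  have c1 : ∀ t : ℕ, 2 * (t + 1).choose 2 = (t + 1) * t := by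
    intro t
    rw [Nat.choose_two_right, Nat.add_sub_cancel]
    exact Nat.mul_div_cancel' (Nat.even_mul_pred_self (t + 1)).two_dvd
  have a1 := c1 k
  have a2 := c1 (2 + s)
  have a3 := c1 (2 + s + k)
  have b2 : 2 + s + 1 = 3 + s := by ring
  have b3 : 2 + s + k + 1 = 3 + s + k := by ring
  rw [b2] at a2
  rw [b3] at a3
  nlinarith

/-- **Weak rainbow saturation numbers of cliques.** For all `n ≥ r ≥ 3` one has
`rwsat(n, K_r) ≤ (r - 1) n - C(r, 2)`. -/
theorem result (r : ℕ) (hr : 3 ≤ r) (n : ℕ) (hn : r ≤ n) :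
    rwsat n r + r.choose 2 ≤ (r - 1) * n := by
  obtain ⟨χ, hχ⟩ : ∃ χ : Sym2 (Fin n) → ℕ, Function.Injective χ := by
    classical
    exact ⟨fun f => (Fintype.equivFin (Sym2 (Fin n)) f : ℕ),
      Fin.val_injective.comp (Equiv.injective _)⟩
  have h1 : rwsat n r ≤ (base n r).edgeSet.ncard :=
    Nat.sInf_le ⟨base n r, χ, base_saturated n r hr hn χ hχ, rfl⟩
  have h2 := base_card n r hr hn
  omega

end Pool.Agent.Results.MP_d10f6f_co.WeakRainbow
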